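import Pool.Agent.Q255.IC.Stm

set_option autoImplicit false

namespace Pool.Agent.Q255.IC

open Filter Topology MeasureTheory
open scoped ENNReal

theorem abs_sg (ω : ℕ → Bool) (k : ℕ) : |sg ω k| = 1 := by
  unfold sg
  split_ifs <;> simp

theorem pr_prime (k : ℕ) : (pr k).Prime := Nat.prime_nth_prime k

theorem pr_pos (k : ℕ) : (0 : ℝ) < pr k := by exact_mod_cast (pr_prime k).pos

theorem av_le : S_AV := by
  intro N w α h k
  have h0 := pr_pos k
  unfold av
  rw [abs_mul, abs_of_nonneg (Real.rpow_nonneg h0.le _)]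
  have h1 : |(∑ j, α k j).re| ≤ N * (pr k : ℝ) ^ (w / 2) := by
    refine (Complex.abs_re_le_norm _).trans ?_
    refine (norm_sum_le_of_le _ fun j _ => h k j).trans ?_
    simp
  calc |(∑ j, α k j).re| * (pr k : ℝ) ^ (-(w / 2))
      ≤ N * (pr k : ℝ) ^ (w / 2) * (pr k : ℝ) ^ (-(w / 2)) := by gcongr
    _ = N := by
        rw [mul_assoc, ← Real.rpow_add h0]
        simp

theorem abel_fin (b w : ℕ → ℝ) (n : ℕ) :
    ∑ k ∈ Finset.range n, b k * w k =
      (∑ k ∈ Finset.range n, (w k - w (k + 1)) * ∑ i ∈ Finset.range (k + 1), b i) +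
        w n * ∑ i ∈ Finset.range n, b i := by
  induction n with
  | zero => simp
  | succ n ih =>
    rw [Finset.sum_range_succ, ih, Finset.sum_range_succ, Finset.sum_range_succ b n]
    ring

theorem abel : S_ABEL := by
  intro b w B κ C hb hC hw hw0 hs hsum
  have hB : 0 ≤ B := (abs_nonneg _).trans (hb 0)
  have hbw : Summable fun k => b k * w k := by
    refine Summable.of_norm_bounded (hs.mul_left B) fun k => ?_
    rw [Real.norm_eq_abs, abs_mul, abs_of_nonneg (hw0 k)]
    exact mul_le_mul_of_nonneg_right (hb k) (hw0 k)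
  have hfin : ∀ n, ∑ k ∈ Finset.range n, b k * w k ≤ κ * ∑ k ∈ Finset.range n, w k + C * w 0 := by
    intro n
    have h1 : ∑ k ∈ Finset.range n, w k =
        (∑ k ∈ Finset.range n, (w k - w (k + 1)) * ((k + 1 : ℕ) : ℝ)) + w n * n := by
      have := abel_fin (fun _ => 1) w n
      simpa using this
    have h2 : w 0 = (∑ k ∈ Finset.range n, (w k - w (k + 1))) + w n := by
      rw [Finset.sum_range_sub']
      ring
    rw [abel_fin b w n]
    calc (∑ k ∈ Finset.range n, (w k - w (k + 1)) * ∑ i ∈ Finset.range (k + 1), b i) +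
        w n * ∑ i ∈ Finset.range n, b i
        ≤ (∑ k ∈ Finset.range n, (w k - w (k + 1)) * (κ * ((k + 1 : ℕ) : ℝ) + C)) +
          w n * (κ * n + C) := by
          refine add_le_add (Finset.sum_le_sum fun k _ => ?_) ?_
          · exact mul_le_mul_of_nonneg_left (hsum _) (sub_nonneg.2 (hw (Nat.le_succ k)))
          · exact mul_le_mul_of_nonneg_left (hsum _) (hw0 n)
      _ = κ * ∑ k ∈ Finset.range n, w k + C * w 0 := by
          rw [h1, h2]
          simp only [mul_add, Finset.sum_add_distrib, Finset.mul_sum]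
          have h3 : ∑ k ∈ Finset.range n, (w k - w (k + 1)) * (κ * ((k + 1 : ℕ) : ℝ)) =
              ∑ k ∈ Finset.range n, κ * ((w k - w (k + 1)) * ((k + 1 : ℕ) : ℝ)) :=
            Finset.sum_congr rfl fun k _ => by ring
          have h4 : ∑ k ∈ Finset.range n, (w k - w (k + 1)) * C =
              ∑ k ∈ Finset.range n, C * (w k - w (k + 1)) :=
            Finset.sum_congr rfl fun k _ => by ring
          rw [h3, h4]
          ring
  have hl := hbw.hasSum.tendsto_sum_nat
  have hr := (hs.hasSum.tendsto_sum_nat.const_mul κ).add_const (C * w 0)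
  exact le_of_tendsto_of_tendsto' hl hr hfin

theorem one_sub_cost (u : ℝ) : cost u = Real.log 2 - Real.binEntropy ((1 + u) / 2) := rfl

theorem cost_eq {u : ℝ} (h1 : -1 < u) (h2 : u < 1) :
    cost u = ((1 + u) * Real.log (1 + u) + (1 - u) * Real.log (1 - u)) / 2 := by
  have ha : (1 + u) / 2 ≠ 0 := by linarith
  have hb : 1 - (1 + u) / 2 ≠ 0 := by linarith
  unfold cost
  rw [Real.binEntropy, Real.log_inv, Real.log_inv, show 1 - (1 + u) / 2 = (1 - u) / 2 by ring,
    Real.log_div (by linarith) (by norm_num), Real.log_div (by linarith) (by norm_num)]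
  ring

theorem cost_one : cost 1 = Real.log 2 := by
  unfold cost
  norm_num

theorem sup_lt {u : ℝ} (h0 : 0 < u) (h1 : u < 1) :
    ∃ t : ℝ, 0 < t ∧ cost u = t * u - Real.log (Real.cosh t) := by
  have ha : 0 < 1 + u := by linarith
  have hb : 0 < 1 - u := by linarith
  have hlog : Real.log (1 - u) < Real.log (1 + u) := Real.log_lt_log hb (by linarith)
  refine ⟨(Real.log (1 + u) - Real.log (1 - u)) / 2, by linarith, ?_⟩
  set t : ℝ := (Real.log (1 + u) - Real.log (1 - u)) / 2 with ht
  have hc : Real.cosh t = Real.exp (-(Real.log (1 + u) + Real.log (1 - u)) / 2) := by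
    have e1 : Real.exp (Real.log (1 + u)) = 1 + u := Real.exp_log ha
    have e2 : Real.exp (Real.log (1 - u)) = 1 - u := Real.exp_log hb
    have e3 : Real.exp t = Real.exp (-(Real.log (1 + u) + Real.log (1 - u)) / 2) * (1 + u) := by
      rw [show Real.exp (-(Real.log (1 + u) + Real.log (1 - u)) / 2) * (1 + u) =
        Real.exp (-(Real.log (1 + u) + Real.log (1 - u)) / 2) * Real.exp (Real.log (1 + u)) by
          rw [e1], ← Real.exp_add]
      congr 1
      rw [ht]
      ring
    have e4 : Real.exp (-t) = Real.exp (-(Real.log (1 + u) + Real.log (1 - u)) / 2) * (1 - u) := by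
      rw [show Real.exp (-(Real.log (1 + u) + Real.log (1 - u)) / 2) * (1 - u) =
        Real.exp (-(Real.log (1 + u) + Real.log (1 - u)) / 2) * Real.exp (Real.log (1 - u)) by
          rw [e2], ← Real.exp_add]
      congr 1
      rw [ht]
      ring
    rw [Real.cosh_eq, e3, e4]
    ring
  rw [hc, Real.log_exp, cost_eq (by linarith) h1, ht]
  ring

theorem cost_pos {u : ℝ} (h0 : 0 < u) (h1 : u ≤ 1) : 0 < cost u := by
  unfold cost
  have h2 : (1 + u) / 2 ≠ 2⁻¹ := by
    intro h
    rw [inv_eq_one_div] at h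
    linarith
  have := Real.binEntropy_lt_log_two.2 h2
  linarith

theorem sup_all : S_SUP := by
  intro u ε h0 h1 hε
  refine ⟨(cost_pos h0 h1).le, cost_pos h0 h1, ?_⟩
  rcases lt_or_eq_of_le h1 with h | rfl
  · obtain ⟨t, ht, he⟩ := sup_lt h0 h
    exact ⟨t, ht, by linarith⟩
  · rw [cost_one]
    have hlim : Tendsto (fun t : ℝ => Real.exp (-(2 * t))) atTop (𝓝 0) := by
      refine Real.tendsto_exp_neg_atTop_nhds_zero.comp ?_
      exact tendsto_id.const_mul_atTop (by norm_num)
    obtain ⟨t, ht1, ht2⟩ := ((hlim.eventually (gt_mem_nhds hε)).and (eventually_gt_atTop 0)).exists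
    refine ⟨t, ht2, ?_⟩
    have hc : Real.cosh t = Real.exp t / 2 * (1 + Real.exp (-(2 * t))) := by
      rw [Real.cosh_eq, mul_add, mul_one, div_mul_eq_mul_div, ← Real.exp_add,
        show t + -(2 * t) = -t by ring]
      ring
    have hp : 0 < Real.exp (-(2 * t)) := Real.exp_pos _
    rw [hc, Real.log_mul (by positivity) (by positivity), Real.log_div (Real.exp_pos _).ne' two_ne_zero,
      Real.log_exp]
    have h3 := Real.log_le_sub_one_of_pos (show 0 < 1 + Real.exp (-(2 * t)) by positivity)
    linarith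

theorem prod_cosh_le {a : ℕ → ℝ} {B t : ℝ} (ha : ∀ k, |a k| ≤ B) (ht : 0 ≤ t) (n : ℕ) :
    ∏ k : Fin n, (Real.exp (t * a k) + Real.exp (-(t * a k))) ≤ (2 * Real.cosh (t * B)) ^ n := by
  calc ∏ k : Fin n, (Real.exp (t * a k) + Real.exp (-(t * a k)))
      ≤ ∏ _k : Fin n, (2 * Real.cosh (t * B)) := by
        refine Finset.prod_le_prod (fun k _ => by positivity) fun k _ => ?_
        have h1 : Real.exp (t * a k) + Real.exp (-(t * a k)) = 2 * Real.cosh (t * a k) := by
          rw [Real.cosh_eq]
          ring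
        have h2 : Real.cosh (t * a k) ≤ Real.cosh (t * B) := by
          rw [Real.cosh_le_cosh, abs_mul, abs_mul, abs_of_nonneg ht]
          exact mul_le_mul_of_nonneg_left ((ha k).trans (le_abs_self B)) ht
        rw [h1]
        linarith
    _ = _ := by simp

theorem cher : S_CHER := by
  intro a B m t n ha ht
  classical
  set A := Finset.univ.filter fun s : Fin n → Bool =>
      m * n ≤ -∑ k : Fin n, (if s k then (1 : ℝ) else -1) * a k with hA
  have h1 : (A.card : ℝ) * Real.exp (t * (m * n)) ≤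
      ∑ s : Fin n → Bool, Real.exp (t * -∑ k : Fin n, (if s k then (1 : ℝ) else -1) * a k) := by
    calc (A.card : ℝ) * Real.exp (t * (m * n)) = ∑ s ∈ A, Real.exp (t * (m * n)) := by
          rw [Finset.sum_const, nsmul_eq_mul]
      _ ≤ ∑ s ∈ A, Real.exp (t * -∑ k : Fin n, (if s k then (1 : ℝ) else -1) * a k) := by
          refine Finset.sum_le_sum fun s hs => Real.exp_le_exp.2 ?_
          rw [hA, Finset.mem_filter] at hs
          exact mul_le_mul_of_nonneg_left hs.2 ht
      _ ≤ _ := Finset.sum_le_sum_of_subset_of_nonneg (Finset.subset_univ _) fun s _ _ =>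
          (Real.exp_pos _).le
  have h2 : ∑ s : Fin n → Bool, Real.exp (t * -∑ k : Fin n, (if s k then (1 : ℝ) else -1) * a k) =
      ∏ k : Fin n, (Real.exp (t * a k) + Real.exp (-(t * a k))) := by
    have h3 : ∀ s : Fin n → Bool,
        Real.exp (t * -∑ k : Fin n, (if s k then (1 : ℝ) else -1) * a k) =
          ∏ k : Fin n, (if s k then Real.exp (-(t * a k)) else Real.exp (t * a k)) := by
      intro s
      rw [← Finset.sum_neg_distrib, Finset.mul_sum, Real.exp_sum]
      refine Finset.prod_congr rfl fun k _ => ?_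
      split_ifs
      · congr 1
        ring
      · congr 1
        ring
    rw [Finset.sum_congr rfl fun s _ => h3 s]
    rw [← Fintype.prod_sum (fun (k : Fin n) (b : Bool) =>
      if b then Real.exp (-(t * a k)) else Real.exp (t * a k))]
    refine Finset.prod_congr rfl fun k _ => ?_
    rw [Fintype.sum_bool]
    simp [add_comm]
  have hc : 0 < Real.cosh (t * B) := Real.cosh_pos _
  have h4 := prod_cosh_le ha ht n
  rw [h2] at h1
  have h5 : Real.exp (n * (Real.log 2 + Real.log (Real.cosh (t * B)) - t * m)) =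
      (2 * Real.cosh (t * B)) ^ n * Real.exp (-(t * (m * n))) := by
    rw [← Real.log_mul two_ne_zero hc.ne', mul_sub, sub_eq_add_neg, Real.exp_add,
      Real.exp_nat_mul, Real.exp_log (by positivity)]
    congr 2
    ring
  rw [h5, Real.exp_neg, ← div_eq_mul_inv, le_div_iff₀ (Real.exp_pos _)]
  exact h1.trans h4

end Pool.Agent.Q255.IC
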