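import Pool.Agent.Q255.IC.Basic

set_option autoImplicit false

namespace Pool.Agent.Q255.IC

open Filter Topology MeasureTheory
open scoped ENNReal

/-- The `f` for which some `X` and `i` with `b_i(X) ≤ N` give a twisted `L`-function of the size of a
zero or of a pole of order `m` at `s₀ = i/2 + 1`. -/
def Like (N : ℕ) (m : ℝ) : Set (ℕ → Bool) :=
  {ω | ∃ (n d i : ℕ) (X : Finset (MvPolynomial (Fin n) ℤ)) (b : ℕ) (α : ℕ → Fin b → ℂ),
    i ≤ 2 * d ∧ b ≤ N ∧ IsSystem X d i α ∧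
      (ZeroLike (LF α ω) ((i : ℝ) / 2 + 1) m ∨ PoleLike (LF α ω) ((i : ℝ) / 2 + 1) m)}

/-- The `f` for which some `X` and `i` with `b_i(X) ≤ N` give a twisted `L`-function which extends
meromorphically to a neighbourhood of `s₀ = i/2 + 1`, with a zero or a pole of order `≥ m` there. -/
def Zeros (N m : ℕ) : Set (ℕ → Bool) :=
  {ω | ∃ (n d i : ℕ) (X : Finset (MvPolynomial (Fin n) ℤ)) (b : ℕ) (α : ℕ → Fin b → ℂ) (k : ℤ),
    i ≤ 2 * d ∧ b ≤ N ∧ IsSystem X d i α ∧ HasOrder (LF α ω) ((i : ℝ) / 2 + 1) k ∧ (m : ℤ) ≤ |k|}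

/-- The `f` for which the `L`-function of `N` points, `∏ (1 - f(p) p^{-s})^{-N}`, extends
analytically to `Re s > 1/2` with a zero of order exactly `m` at `1`. -/
def PointZeros (N m : ℕ) : Set (ℕ → Bool) :=
  {ω | ∃ G : ℂ → ℂ, AnalyticOnNhd ℂ G {s | 1 / 2 < s.re} ∧ ∀ s : ℂ, 1 < s.re →
    LF (fun _ _ => (1 : ℂ) : ℕ → Fin N → ℂ) ω s * riemannZeta s ^ m = Complex.exp (G s)}

/-- An index set for all `X`, `i`. -/
abbrev Idx := Σ n : ℕ, (ℕ × ℕ) × Finset (MvPolynomial (Fin n) ℤ)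

noncomputable instance : Countable Idx := by
  have : ∀ n, Countable (MvPolynomial (Fin n) ℤ) := fun n => by
    have h := MvPolynomial.cardinalMk_le_max (σ := Fin n) (R := ℤ)
    rw [← Cardinal.mk_le_aleph0_iff]
    refine h.trans (max_le (max_le (Cardinal.mk_le_aleph0) (Cardinal.mk_le_aleph0)) le_rfl)
  infer_instance

/-- there is a system of rank at most `N` -/
def HasSys (N : ℕ) (I : Idx) : Prop :=
  I.2.1.2 ≤ 2 * I.2.1.1 ∧ ∃ (b : ℕ) (α : ℕ → Fin b → ℂ), b ≤ N ∧ IsSystem I.2.2 I.2.1.1 I.2.1.2 α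

open Classical in
/-- the real parts of the traces of the chosen system -/
noncomputable def chosen (N : ℕ) (I : Idx) : ℕ → ℝ :=
  if h : HasSys N I then av (I.2.1.2 : ℝ) h.2.choose_spec.choose else 0

theorem chosen_le (N : ℕ) (I : Idx) (k : ℕ) : |chosen N I k| ≤ N := by
  unfold chosen
  split_ifs with h
  · have h1 := h.2.choose_spec.choose_spec
    exact (av_le _ _ _ h1.2.2 k).trans (by exact_mod_cast h1.1)
  · simp

theorem chosen_eq (hUNI : S_UNI) {N : ℕ} {n d i : ℕ} {X : Finset (MvPolynomial (Fin n) ℤ)} {b : ℕ}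
    {α : ℕ → Fin b → ℂ} (hi : i ≤ 2 * d) (hb : b ≤ N) (hα : IsSystem X d i α) :
    ∀ᶠ k in atTop, av (i : ℝ) α k = chosen N ⟨n, (d, i), X⟩ k := by
  have h : HasSys N ⟨n, (d, i), X⟩ := ⟨hi, b, α, hb, hα⟩
  have h1 := h.2.choose_spec.choose_spec
  have h2 := (hUNI n X d i hi _ _ α _ hα h1.2).2
  unfold chosen
  rw [dif_pos h]
  exact h2

theorem like_subset (hRZ : S_RZ) (hFIN : S_FIN) (hUNI : S_UNI) (N : ℕ) :
    ∃ a : ℕ → ℕ → ℝ, (∀ i k, |a i k| ≤ N) ∧ ∀ m : ℝ, Like N m ⊆ ⋃ i, {ω | RZ (a i) ω m} := by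
  classical
  have : Nonempty (Idx × Bool) := ⟨(⟨0, (0, 0), ∅⟩, true)⟩
  obtain ⟨f, hf⟩ := exists_surjective_nat (Idx × Bool)
  refine ⟨fun j k => (if (f j).2 then 1 else -1) * chosen N (f j).1 k, fun j k => ?_, fun m ω hω => ?_⟩
  · rw [abs_mul]
    have h1 : |(if (f j).2 then (1 : ℝ) else -1)| = 1 := by split_ifs <;> simp
    rw [h1, one_mul]
    exact chosen_le N _ k
  · obtain ⟨n, d, i, X, b, α, hi, hb, hα, hor⟩ := hω
    have hav : ∀ k, |av (i : ℝ) α k| ≤ N := fun k =>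
      (av_le _ _ _ hα.2 k).trans (by exact_mod_cast hb)
    have he := chosen_eq hUNI hi hb hα
    rw [Set.mem_iUnion]
    rcases hor with h | h
    · obtain ⟨j, hj⟩ := hf (⟨n, (d, i), X⟩, true)
      refine ⟨j, ?_⟩
      simp only [hj, if_true, one_mul, Set.mem_ofPred_eq]
      exact hFIN N _ _ ω m hav (chosen_le N _) he (((hRZ b (i : ℝ) α ω m hα.2).1).1 h)
    · obtain ⟨j, hj⟩ := hf (⟨n, (d, i), X⟩, false)
      refine ⟨j, ?_⟩
      simp only [hj, Set.mem_ofPred_eq, Bool.false_eq_true, if_false, neg_one_mul]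
      refine hFIN N _ _ ω m (fun k => by rw [abs_neg]; exact hav k)
        (fun k => by rw [abs_neg]; exact chosen_le N _ k) ?_ (((hRZ b (i : ℝ) α ω m hα.2).2).1 h)
      filter_upwards [he] with k hk
      rw [hk]

end Pool.Agent.Q255.IC
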