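import Pool.Agent.Q255.IC.Asm

set_option autoImplicit false

namespace Pool.Agent.Q255.IC

open Filter Topology MeasureTheory
open scoped ENNReal

theorem dimS_mono {S T : Set (ℕ → Bool)} (h : S ⊆ T) : dimS S ≤ dimS T := by
  unfold dimS
  letI : MetricSpace (ℕ → Bool) := PiNat.metricSpace (E := fun _ => Bool)
  exact dimH_mono h

/-- the Frobenius eigenvalues of `N` points -/
def one (N : ℕ) : ℕ → Fin N → ℂ := fun _ _ => 1

theorem av_one (N : ℕ) (k : ℕ) : av ((0 : ℕ) : ℝ) (one N) k = N := by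
  unfold av one
  simp

theorem points_like (hRZ : S_RZ) (hPTS : S_PTS) {N : ℕ} (hN : 0 < N) (m : ℝ) :
    {ω | RZ (fun _ => (N : ℝ)) ω m} ⊆ Like N m := by
  intro ω hω
  have hs := hPTS N hN
  refine ⟨2, 0, 0, points N, N, one N, le_rfl, le_rfl, hs, Or.inl ?_⟩
  refine ((hRZ N ((0 : ℕ) : ℝ) (one N) ω m hs.2).1).2 ?_
  have : av ((0 : ℕ) : ℝ) (one N) = fun _ => (N : ℝ) := funext (av_one N)
  rw [this]
  exact hω

theorem bal_points (hCONT : S_CONT) {N : ℕ} (hN : 0 < N) (m : ℕ) :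
    {ω | Bal ((m : ℝ) / N) ω} ⊆ PointZeros N m := by
  rintro ω ⟨C, hC⟩
  have hC0 : 0 ≤ C := (abs_nonneg _).trans (hC 0)
  refine hCONT N m ω hN fun δ hδ => ⟨C, fun n => ?_⟩
  rcases Nat.eq_zero_or_pos n with rfl | hn
  · simp only [Finset.range_zero, Finset.sum_empty, abs_zero]
    positivity
  · refine (hC n).trans (le_mul_of_one_le_right hC0 ?_)
    exact Real.one_le_rpow (by exact_mod_cast hn) (by linarith)

theorem points_zeros (hORD : S_ORD) (hPTS : S_PTS) {N : ℕ} (hN : 0 < N) (m : ℕ) :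
    PointZeros N m ⊆ Zeros N m := by
  rintro ω ⟨G, h1, h2⟩
  refine ⟨2, 0, 0, points N, N, one N, m, le_rfl, le_rfl, hPTS N hN, ?_, le_abs_self _⟩
  have := hORD (LF (one N) ω) G m h1 h2
  simpa using this

theorem zeros_like (hZP : S_ZP) (N m : ℕ) : Zeros N m ⊆ Like N m := by
  rintro ω ⟨n, d, i, X, b, α, k, h1, h2, h3, h4, h5⟩
  refine ⟨n, d, i, X, b, α, h1, h2, h3, ?_⟩
  have := hZP (LF α ω) ((i : ℝ) / 2 + 1) k m h4
  rcases le_abs'.1 h5 with h | h
  · exact Or.inr (this.2 (by exact_mod_cast h))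
  · exact Or.inl (this.1 (by exact_mod_cast h))

theorem measure_one_of_ae {ν : Measure (ℕ → Bool)} [IsProbabilityMeasure ν] {S : Set (ℕ → Bool)}
    (h : ∀ᵐ ω ∂ν, ω ∈ S) : ν S = 1 := by
  refine le_antisymm prob_le_one ?_
  have h1 : ν Sᶜ = 0 := h
  calc (1 : ℝ≥0∞) = ν Set.univ := measure_univ.symm
    _ ≤ ν S + ν Sᶜ := by
        rw [← Set.union_compl_self S]
        exact measure_union_le _ _
    _ = ν S := by rw [h1, add_zero]

/-- The main statement. -/
def Main : Prop :=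
  ∀ N : ℕ, 0 < N →
    (∀ m : ℝ, 0 < m → m ≤ N →
      dimS (Like N m) = ENNReal.ofReal (Real.binEntropy ((1 + m / N) / 2) / Real.log 2)) ∧
    (∀ m : ℕ, 0 < m → m ≤ N → PointZeros N m ⊆ Zeros N m ∧ Zeros N m ⊆ Like N m ∧
      dimS (PointZeros N m) = ENNReal.ofReal (Real.binEntropy ((1 + (m : ℝ) / N) / 2) / Real.log 2)) ∧
    (∀ (ν : Measure (ℕ → Bool)) [IsProbabilityMeasure ν] (m c : ℝ), 0 < m → m ≤ N → 0 ≤ c →
      (∀ ε : ℝ, 0 < ε → ∀ᶠ n : ℕ in atTop, (Real.log 2 - c - ε) * n ≤ entropy ν n) →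
        ν (Like N m) ≤ ENNReal.ofReal (c / cost (m / N))) ∧
    (∀ m c : ℝ, 0 < m → m ≤ N → 0 ≤ c → c ≤ cost (m / N) →
      ∃ ν : Measure (ℕ → Bool), IsProbabilityMeasure ν ∧
        (∀ n : ℕ, (Real.log 2 - c) * n ≤ entropy ν n) ∧
        ν (Like N m) = ENNReal.ofReal (c / cost (m / N)) ∧
        ∀ k : ℕ, (k : ℝ) = m → ν (PointZeros N k) = ENNReal.ofReal (c / cost (m / N)))

theorem main (hRZ : S_RZ) (hZP : S_ZP) (hFIN : S_FIN) (hT1 : S_T1) (hMIX : S_MIX) (hIID : S_IID)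
    (hT2 : S_T2) (hBALQ : S_BALQ) (hT3 : S_T3) (hCONT : S_CONT) (hORD : S_ORD) (hRZB : S_RZB)
    (hUNI : S_UNI) (hPTS : S_PTS) : Main := by
  intro N hN
  have hN' : (0 : ℝ) < N := by exact_mod_cast hN
  obtain ⟨a, ha, hsub⟩ := like_subset hRZ hFIN hUNI N
  have hup : ∀ m : ℝ, 0 < m → m ≤ N →
      dimS (Like N m) ≤ ENNReal.ofReal (Real.binEntropy ((1 + m / N) / 2) / Real.log 2) :=
    fun m h1 h2 => (dimS_mono (hsub m)).trans (hT2 a N m ha h1 h2)
  have hent : ∀ (ν : Measure (ℕ → Bool)) [IsProbabilityMeasure ν] (m c : ℝ), 0 < m → m ≤ N → 0 ≤ c →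
      (∀ ε : ℝ, 0 < ε → ∀ᶠ n : ℕ in atTop, (Real.log 2 - c - ε) * n ≤ entropy ν n) →
        ν (Like N m) ≤ ENNReal.ofReal (c / cost (m / N)) := by
    intro ν _ m c h1 h2 h3 h4
    refine (measure_mono (hsub m)).trans (hT1 ν a N m c ha h1 h2 h3 fun ε hε => ?_)
    filter_upwards [h4 ε hε] with n hn
    linarith
  refine ⟨fun m h1 h2 => le_antisymm (hup m h1 h2) ?_, fun m h1 h2 => ?_, hent,
    fun m c h1 h2 h3 h4 => ?_⟩
  · exact (hT3 N m h1 h2).trans (dimS_mono (points_like hRZ hPTS hN m))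
  · have e1 := points_zeros hORD hPTS hN m
    have e2 := zeros_like hZP N m
    refine ⟨e1, e2, le_antisymm ?_ ?_⟩
    · exact (dimS_mono (e1.trans e2)).trans (hup m (by exact_mod_cast h1) (by exact_mod_cast h2))
    · exact (hBALQ m N hN h2).trans (dimS_mono (bal_points hCONT hN m))
  · have hu0 : 0 < m / N := by positivity
    have hu1 : m / N ≤ 1 := by rw [div_le_one hN']; exact h2
    have hc := cost_pos hu0 hu1
    set q : ℝ := c / cost (m / N) with hq
    have hq0 : 0 ≤ q := by positivity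
    have hq1 : q ≤ 1 := by rw [hq, div_le_one hc]; exact h4
    obtain ⟨ν₁, hp1, he1, ha1⟩ := hIID (m / N) hu0.le hu1
    obtain ⟨ν₀, hp0, he0, -⟩ := hIID 0 le_rfl zero_le_one
    obtain ⟨hpm, hconc⟩ := hMIX ν₁ ν₀ q hq0 hq1
    set ν := ENNReal.ofReal q • ν₁ + ENNReal.ofReal (1 - q) • ν₀ with hν
    have hentn : ∀ n : ℕ, (Real.log 2 - c) * n ≤ entropy ν n := by
      intro n
      refine le_trans (le_of_eq ?_) (hconc n)
      rw [he1 n, he0 n, add_zero, one_div, Real.binEntropy_two_inv]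
      have h5 : c = q * cost (m / N) := by
        rw [hq]
        field_simp
      rw [h5]
      unfold cost
      ring
    have hge : ∀ S : Set (ℕ → Bool), (∀ᵐ ω ∂ν₁, ω ∈ S) → ENNReal.ofReal q ≤ ν S := by
      intro S hS
      have h6 := measure_one_of_ae hS
      rw [hν, Measure.add_apply, Measure.smul_apply, h6, smul_eq_mul, mul_one]
      exact le_self_add
    have hle : ν (Like N m) ≤ ENNReal.ofReal q := by
      refine hent ν m c h1 h2 h3 fun ε hε => Eventually.of_forall fun n => ?_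
      refine le_trans ?_ (hentn n)
      have : 0 ≤ ε * n := by positivity
      nlinarith
    have hae : ∀ᵐ ω ∂ν₁, ω ∈ Like N m := by
      filter_upwards [ha1] with ω hω
      obtain ⟨C, hC⟩ := hω (1 / 4) (by norm_num)
      refine points_like hRZ hPTS hN m (hRZB N m C ω hN' fun n => ?_)
      have := hC n
      norm_num at this ⊢
      exact this
    refine ⟨ν, hpm, hentn, le_antisymm hle (hge _ hae), fun k hk => ?_⟩
    have hk0 : (0 : ℝ) < k := hk ▸ h1
    refine le_antisymm (le_trans (measure_mono ?_) hle) (hge _ ?_)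
    · rw [← hk]
      exact (points_zeros hORD hPTS hN k).trans (zeros_like hZP N k)
    · filter_upwards [ha1] with ω hω
      rw [← hk] at hω
      exact hCONT N k ω hN hω

end Pool.Agent.Q255.IC
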