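import Mathlib

/-!
# Information and dimension cost of a zero at the edge: statements

`f` is completely multiplicative with values `1` and `-1` at the primes; the sign at the `k`-th
prime `p_k` is `sg ω k`, `ω : ℕ → Bool`.
-/

set_option autoImplicit false

namespace Pool.Agent.Q255.IC

open Filter Topology MeasureTheory
open scoped ENNReal

/-- the `k`-th prime, `pr 0 = 2` -/
noncomputable def pr (k : ℕ) : ℕ := Nat.nth Nat.Prime k

/-- the sign at the `k`-th prime -/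
def sg (ω : ℕ → Bool) (k : ℕ) : ℝ := if ω k then 1 else -1

/-- `log 2 - H((1+u)/2)`, `H` the binary entropy; this is
`((1+u) log (1+u) + (1-u) log (1-u)) / 2` -/
noncomputable def cost (u : ℝ) : ℝ := Real.log 2 - Real.binEntropy ((1 + u) / 2)

/-- the Shannon entropy (natural logarithms) of the first `n` signs -/
noncomputable def entropy (ν : Measure (ℕ → Bool)) (n : ℕ) : ℝ :=
  ∑ s : Fin n → Bool, Real.negMulLog (ν.real {ω | ∀ k : Fin n, ω k = s k})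

/-- Hausdorff dimension of a set of sign sequences for the distance `(1/2)^n`, `n` the first
index where the two sequences differ -/
noncomputable def dimS (S : Set (ℕ → Bool)) : ℝ≥0∞ :=
  letI : MetricSpace (ℕ → Bool) := PiNat.metricSpace (E := fun _ => Bool)
  dimH S

/-- the twisted Euler product `∏_k ∏_j (1 - f(p_k) α_{k,j} p_k^{-s})⁻¹` -/
noncomputable def LF {N : ℕ} (α : ℕ → Fin N → ℂ) (ω : ℕ → Bool) (s : ℂ) : ℂ :=
  ∏' k, (∏ j, (1 - (sg ω k : ℂ) * α k j * (pr k : ℂ) ^ (-s)))⁻¹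

/-- `|α_{k,j}| ≤ p_k^{w/2}` -/
def Sys {N : ℕ} (w : ℝ) (α : ℕ → Fin N → ℂ) : Prop := ∀ k j, ‖α k j‖ ≤ (pr k : ℝ) ^ (w / 2)

/-- `|F(s₀ + h)| ≤ h^(m-ε)` for small `h > 0`, for each `ε > 0` -/
def ZeroLike (F : ℂ → ℂ) (s₀ m : ℝ) : Prop :=
  ∀ ε : ℝ, 0 < ε → ∀ᶠ h : ℝ in 𝓝[>] 0, ‖F ((s₀ + h : ℝ) : ℂ)‖ ≤ h ^ (m - ε)

/-- `|F(s₀ + h)| ≥ h^(-(m-ε))` for small `h > 0`, for each `ε > 0` -/
def PoleLike (F : ℂ → ℂ) (s₀ m : ℝ) : Prop :=
  ∀ ε : ℝ, 0 < ε → ∀ᶠ h : ℝ in 𝓝[>] 0, h ^ (-(m - ε)) ≤ ‖F ((s₀ + h : ℝ) : ℂ)‖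

/-- `F`, defined for `Re s > s₀`, has a meromorphic continuation to a neighbourhood of `s₀`, of
order `k` at `s₀` -/
def HasOrder (F : ℂ → ℂ) (s₀ : ℝ) (k : ℤ) : Prop :=
  ∃ Λ : ℂ → ℂ, MeromorphicAt Λ (s₀ : ℂ) ∧ (∀ᶠ s in 𝓝 (s₀ : ℂ), s₀ < s.re → Λ s = F s) ∧
    meromorphicOrderAt Λ (s₀ : ℂ) = k

/-- the real parts of the normalised traces, `|av w α k| ≤ N` -/
noncomputable def av {N : ℕ} (w : ℝ) (α : ℕ → Fin N → ℂ) (k : ℕ) : ℝ :=
  (∑ j, α k j).re * (pr k : ℝ) ^ (-(w / 2))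

/-- `∑_k f(p_k) a_k p_k^{-1-h}` -/
noncomputable def DS (a : ℕ → ℝ) (ω : ℕ → Bool) (h : ℝ) : ℝ :=
  ∑' k, sg ω k * a k * (pr k : ℝ) ^ (-1 - h)

/-- the sum is `≤ (m - ε) log h` for small `h`, for each `ε > 0` -/
def RZ (a : ℕ → ℝ) (ω : ℕ → Bool) (m : ℝ) : Prop :=
  ∀ ε : ℝ, 0 < ε → ∀ᶠ h : ℝ in 𝓝[>] 0, DS a ω h ≤ (m - ε) * Real.log h

/-! ## Analysis -/

/-- The sum over the primes: `|∑_k p_k^{-1-h} - log (1/h)| ≤ C` for `0 < h ≤ 1`, and the sum
converges.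

Proof: `log ζ(1+h) = ∑_p p^{-1-h} + O(1)` (log of the Euler product, real) and
`1/h ≤ ζ(1+h) ≤ 1/h + 1`.  Libraries have this for sums over primes written as
`∑' p : Nat.Primes` or over `n` with `if n.Prime`: transfer with the bijection
`k ↦ Nat.nth Nat.Prime k`. -/
def S_PZ : Prop :=
  ∃ C : ℝ, ∀ h : ℝ, 0 < h → h ≤ 1 →
    (Summable fun k : ℕ => (pr k : ℝ) ^ (-1 - h)) ∧
      |(∑' k : ℕ, (pr k : ℝ) ^ (-1 - h)) + Real.log h| ≤ C

/-- The logarithm of the Euler product.  For `0 < h ≤ 1` the product converges, is not zero, and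
`|log |L(w/2+1+h)| - ∑ f(p_k) a_k p_k^{-1-h}| ≤ C(N)`, `a = av w α`.

Proof: `z = sg ω k * α k j * p^{-(w/2+1+h)}` has `|z| ≤ p^{-1-h} ≤ 1/2`, so
`|-log |1 - z| - Re z| ≤ |z|^2 ≤ p^{-2}` (times a constant); `Re z = sg ω k * Re (α k j) * p^{-w/2} *
p^{-1-h}`.  Sum over `j` (N terms) and `k` (`∑ p_k^{-2} ≤ 1`).  The product converges absolutely
(`∑ |z| < ∞`, e.g. `Complex.multipliable_of_summable_log` or `multipliable_one_add_of_summable`), the
norm of the product is the product of the norms, `log` of it the sum of the logs. -/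
def S_LOG : Prop :=
  ∀ N : ℕ, ∃ C : ℝ, ∀ (w : ℝ) (α : ℕ → Fin N → ℂ) (ω : ℕ → Bool) (h : ℝ), Sys w α → 0 < h → h ≤ 1 →
    Multipliable (fun k => (∏ j, (1 - (sg ω k : ℂ) * α k j * (pr k : ℂ) ^ (-((w / 2 + 1 + h : ℝ) : ℂ))))⁻¹) ∧
    LF α ω ((w / 2 + 1 + h : ℝ) : ℂ) ≠ 0 ∧
    |Real.log ‖LF α ω ((w / 2 + 1 + h : ℝ) : ℂ)‖ - DS (av w α) ω h| ≤ C

/-- Zeros and poles in terms of the sum over primes (from `S_LOG`).  Constants are absorbed by
`ε log (1/h) → ∞`. -/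
def S_RZ : Prop :=
  ∀ (N : ℕ) (w : ℝ) (α : ℕ → Fin N → ℂ) (ω : ℕ → Bool) (m : ℝ), Sys w α →
    (ZeroLike (LF α ω) (w / 2 + 1) m ↔ RZ (av w α) ω m) ∧
    (PoleLike (LF α ω) (w / 2 + 1) m ↔ RZ (fun k => -av w α k) ω m)

/-- `|av w α k| ≤ N`. -/
def S_AV : Prop :=
  ∀ (N : ℕ) (w : ℝ) (α : ℕ → Fin N → ℂ), Sys w α → ∀ k, |av w α k| ≤ N

/-- Order of a meromorphic continuation and the size on the real axis: if the order is `k ≥ m` then
`F` is `ZeroLike` of order `m`, if it is `≤ -m` it is `PoleLike` of order `m`.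

Proof: near `s₀`, `Λ s = (s - s₀)^k g(s)`, `g` analytic and nonzero at `s₀`
(`meromorphicOrderAt_eq_int_iff`), restrict to `s = s₀ + h`, `h → 0+`, and `C ≤ h^(-ε)`. -/
def S_ZP : Prop :=
  ∀ (F : ℂ → ℂ) (s₀ : ℝ) (k : ℤ) (m : ℝ), HasOrder F s₀ k →
    (m ≤ k → ZeroLike F s₀ m) ∧ ((k : ℝ) ≤ -m → PoleLike F s₀ m)

/-- Changing finitely many `a_k` does not matter (for `0 < h ≤ 1` the change of the sum is bounded;
`(m - ε) log h` absorbs it; if `m - ε ≤ 0` use `ε' < ε`). -/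
def S_FIN : Prop :=
  ∀ (B : ℝ) (a a' : ℕ → ℝ) (ω : ℕ → Bool) (m : ℝ), (∀ k, |a k| ≤ B) → (∀ k, |a' k| ≤ B) →
    (∀ᶠ k in atTop, a k = a' k) → RZ a ω m → RZ a' ω m

/-- Abel summation with decreasing summable weights: if `|b k| ≤ B` and all partial sums satisfy
`∑_{k<n} b k ≤ κ n + C` (`C ≥ 0`), then `∑' b k w k ≤ κ ∑' w k + C w 0`.

Proof: `∑_{k<n} b_k w_k = ∑_{k<n} (w_k - w_{k+1}) B_{k+1} + w_n B_n` (`B_n` the partial sums), so it
is `≤ ∑_{k<n} (w_k - w_{k+1}) (κ (k+1) + C) + w_n (κ n + C) = κ ∑_{k<n} w_k + C w_0`.  Let `n → ∞`. -/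
def S_ABEL : Prop :=
  ∀ (b w : ℕ → ℝ) (B κ C : ℝ), (∀ k, |b k| ≤ B) → 0 ≤ C → Antitone w → (∀ k, 0 ≤ w k) →
    Summable w → (∀ n, ∑ k ∈ Finset.range n, b k ≤ κ * n + C) →
      ∑' k, b k * w k ≤ κ * ∑' k, w k + C * w 0

/-- `sup_t (t u - log cosh t) = cost u`: for `0 < u < 1` take `t = (log (1+u) - log (1-u)) / 2`,
where `cosh t = 1 / √(1-u²)`; for `u = 1` let `t → ∞` (`log cosh t ≤ t - log 2 + exp (-2t)`). -/
def S_SUP : Prop :=
  ∀ u ε : ℝ, 0 < u → u ≤ 1 → 0 < ε →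
    (0 ≤ cost u) ∧ (0 < cost u) ∧ ∃ t : ℝ, 0 < t ∧ cost u - ε ≤ t * u - Real.log (Real.cosh t)

/-! ## Entropy -/

/-- Finite form.  `r l s ≥ 0`, `P s = ∑_l r l s`, total mass `1`.

Proof: put `Z l = (∑_s exp (g l s)) / card S`.  For `r l s > 0`, with `y = exp (g l s) / (card S * Z l *
P s)`, `log y ≤ y / K - 1 + log K`, `K = card Λ`.  Sum `r l s * log y`:
`∑ r l s (g l s - log (card S) - log (Z l) - log (P s)) ≤ (1/K) ∑ r l s y - 1 + log K ≤ log K`, since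
`r l s ≤ P s` gives `∑_{l,s} r l s y ≤ ∑_l ∑_s exp (g l s) / (card S * Z l) = K`.  Terms with
`r l s = 0` contribute `0` on the left. -/
def S_JEN : Prop :=
  ∀ (Λ S : Type) [Fintype Λ] [Nonempty Λ] [Fintype S] [Nonempty S] (r g : Λ → S → ℝ),
    (∀ l s, 0 ≤ r l s) → (∑ l, ∑ s, r l s = 1) →
      ∑ l, ∑ s, r l s * g l s ≤
        Real.log (Fintype.card S) - ∑ s, Real.negMulLog (∑ l, r l s) + Real.log (Fintype.card Λ) +
          ∑ l, (∑ s, r l s) * Real.log ((∑ s, Real.exp (g l s)) / Fintype.card S)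

/-- Measure form (from `S_JEN` with `S = Fin n → Bool`, labels `Option (Fin L)`: the label `none` is the
complement of the `E l`, with `g = 0`; `r l s = ν(cylinder s ∩ E l)`, `g l s = -t ∑_{k<n} sg s_k a l k`;
`∑_s exp (g l s) / 2^n = ∏_{k<n} cosh (t a l k) ≤ cosh (t B)^n`).  The integral over `E l` of a
function of the first `n` signs is a finite sum over the cylinders. -/
def S_ENT : Prop :=
  ∀ (ν : Measure (ℕ → Bool)) [IsProbabilityMeasure ν] (L : ℕ) (E : Fin L → Set (ℕ → Bool))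
    (a : Fin L → ℕ → ℝ) (B t : ℝ), (∀ l, MeasurableSet (E l)) → Pairwise (fun l l' => Disjoint (E l) (E l')) →
      (∀ l k, |a l k| ≤ B) → 0 ≤ t → ∀ n : ℕ,
        t * ∑ k ∈ Finset.range n, ∑ l, ∫ ω in E l, -(sg ω k * a l k) ∂ν ≤
          (n * Real.log 2 - entropy ν n) + Real.log (L + 1) +
            (∑ l, ν.real (E l)) * (n * Real.log (Real.cosh (t * B)))

/-- The entropy bound for countably many sequences `a i`.

Proof.  (1) `RZ (a i) ω m` implies `ω ∈ E i := {ω | ∀ r : ℕ, ∀ᶠ j : ℕ in atTop,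
(m - 1/(r+1)) * j ≤ -DS (a i) ω (exp (-j))}`, which is measurable (`DS a ω h` is a continuous or at least
measurable function of `ω`: uniformly convergent sum, `S_PZ`).  (2) It is enough to bound
`q = ν (⋃_{i<L} E i)` for each finite `L` (continuity from below), and `E 0, ..., E (L-1)` can be made
disjoint (`E l \ ⋃_{i<l} E i`, `disjointed`).  (3) Fix `t > 0` and `ε > 0`; with `b k = ∑_l ∫_{E l} -(sg ω
k * a l k)`, `|b k| ≤ B`, `S_ENT` gives `t ∑_{k<n} b k ≤ κ n + C` for all `n`, `κ = c + ε + q log cosh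
(tB)` (the finitely many `n` where the entropy hypothesis fails go into `C`: there the deficit is
`≤ n log 2`).  `S_ABEL` with the weights `p_k^{-1-h}`: `t ∑' b k p_k^{-1-h} ≤ κ (log (1/h) + C') + C`.
(4) `∑' b k p_k^{-1-h} = ∑_l ∫_{E l} -DS (a l) ω h dν` (dominated convergence), and with `h =
exp (-j)`: on `E l` `min (-DS (a l) ω h / j) m → m` (bounded by `B (j + C')/j` from below), so the
integrals of the `min` over `E l` tend to `m ν(E l)`; hence `t q m ≤ κ = c + ε + q log cosh (tB)`.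
(5) `ε → 0`, replace `t` by `t/B`: `q (t m/B - log cosh t) ≤ c` for all `t > 0`; `S_SUP` gives
`q cost(m/B) ≤ c`. -/
def S_T1 : Prop :=
  ∀ (ν : Measure (ℕ → Bool)) [IsProbabilityMeasure ν] (a : ℕ → ℕ → ℝ) (B m c : ℝ),
    (∀ i k, |a i k| ≤ B) → 0 < m → m ≤ B → 0 ≤ c →
    (∀ ε : ℝ, 0 < ε → ∀ᶠ n : ℕ in atTop, n * Real.log 2 - entropy ν n ≤ (c + ε) * n) →
      ν (⋃ i, {ω | RZ (a i) ω m}) ≤ ENNReal.ofReal (c / cost (m / B))

/-- Concavity of the entropy (`Real.concaveOn_negMulLog` termwise). -/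
def S_MIX : Prop :=
  ∀ (ν₁ ν₂ : Measure (ℕ → Bool)) [IsProbabilityMeasure ν₁] [IsProbabilityMeasure ν₂] (q : ℝ),
    0 ≤ q → q ≤ 1 →
      IsProbabilityMeasure (ENNReal.ofReal q • ν₁ + ENNReal.ofReal (1 - q) • ν₂) ∧
      ∀ n, q * entropy ν₁ n + (1 - q) * entropy ν₂ n ≤
        entropy (ENNReal.ofReal q • ν₁ + ENNReal.ofReal (1 - q) • ν₂) n

/-- Independent signs with mean `-u`: the entropy of the first `n` signs is exactly
`n H((1+u)/2)`, and the partial sums of `sg ω k + u` are `O(n^(1/2+δ))` almost surely.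

Proof: `ν = Measure.infinitePi (fun _ => μ)` (or `productMeasure`) with `μ {true} = (1-u)/2`, `μ {false}
= (1+u)/2`.  The cylinder of `s` has mass `∏ μ {s k}`; entropy of a product by induction on `n` or by
`∑_s ∏ f(s_k) ∑_k log f (s_k)`.  (For `u = 1` the law is a point mass; `0 log 0 = 0`.)  Almost sure
bound: Hoeffding, `ν(|S_n| > n^(1/2+δ)) ≤ 2 exp (-n^(2δ)/8)`, summable, Borel-Cantelli; for all `δ =
1/(r+1)` at once. -/
def S_IID : Prop :=
  ∀ u : ℝ, 0 ≤ u → u ≤ 1 → ∃ ν : Measure (ℕ → Bool), IsProbabilityMeasure ν ∧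
    (∀ n, entropy ν n = n * Real.binEntropy ((1 + u) / 2)) ∧
    ∀ᵐ ω ∂ν, ∀ δ : ℝ, 0 < δ → ∃ C : ℝ, ∀ n : ℕ,
      |∑ k ∈ Finset.range n, (sg ω k + u)| ≤ C * (n : ℝ) ^ (1 / 2 + δ)

/-! ## Dimension -/

/-- Covers by cylinders.  If every `ω ∈ S` has, for infinitely many `n`, its first `n` signs in `W n`,
and `card (W n) ≤ C 2^(s n)` for all `n`, then the dimension of `S` is at most `s`.

Proof: for `s' > s` and every `n₀`, the cylinders of the words in `W n`, `n ≥ n₀`, cover `S`, have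
diameter `≤ 2^{-n}` (distance `(1/2)^(first difference)`), and `∑_{n ≥ n₀} card (W n) 2^{-s' n} ≤
C ∑_{n ≥ n₀} 2^{-(s'-s) n} → 0`; so `μH[s'] S = 0` (`hausdorffMeasure_le_liminf_tsum`), and
`dimH S ≤ s'`. -/
def S_COV : Prop :=
  ∀ (S : Set (ℕ → Bool)) (W : ∀ n : ℕ, Finset (Fin n → Bool)) (s C : ℝ), 0 ≤ s →
    (∀ n, ((W n).card : ℝ) ≤ C * 2 ^ (s * n)) →
    (∀ ω ∈ S, ∃ᶠ n : ℕ in atTop, (fun k : Fin n => ω k) ∈ W n) → dimS S ≤ ENNReal.ofReal s

/-- Chernoff bound for the number of sign vectors: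
`#{s | -∑_{k<n} s_k a_k ≥ m n} ≤ (2 cosh (t B) exp (-t m))^n`, i.e. at most
`exp (n (log 2 + log cosh (tB) - t m))`. -/
def S_CHER : Prop :=
  ∀ (a : ℕ → ℝ) (B m t : ℝ) (n : ℕ), (∀ k, |a k| ≤ B) → 0 ≤ t →
    ((Finset.univ.filter fun s : Fin n → Bool =>
      m * n ≤ -∑ k : Fin n, (if s k then (1 : ℝ) else -1) * a k).card : ℝ) ≤
      Real.exp (n * (Real.log 2 + Real.log (Real.cosh (t * B)) - t * m))

/-- The upper bound for the dimension.

Proof.  `dimS` of a countable union is the supremum (`dimH_iUnion`), so one `a`.  If `RZ a ω m`, then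
for every `δ > 0` infinitely many `n` have `-∑_{k<n} sg ω k a_k ≥ (m - δ) n`: otherwise `∑_{k<n} -(sg ω k
a_k) ≤ (m - δ) n + C` for all `n`, and `S_ABEL`, `S_PZ` give `-DS a ω h ≤ (m - δ) (log (1/h) + C') + C`,
contradicting `RZ` with `ε = δ/2`.  `S_CHER` and `S_COV`: `dimS ≤ (log 2 + log cosh (tB) - t (m - δ)) /
log 2` (this is `≥ 0` because for `t B =: τ`, `τ m/B - log cosh τ ≤ τ - log cosh τ ≤ log 2`); let
`δ → 0` and use `S_SUP`. -/
def S_T2 : Prop :=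
  ∀ (a : ℕ → ℕ → ℝ) (B m : ℝ), (∀ i k, |a i k| ≤ B) → 0 < m → m ≤ B →
    dimS (⋃ i, {ω | RZ (a i) ω m}) ≤
      ENNReal.ofReal (Real.binEntropy ((1 + m / B) / 2) / Real.log 2)

/-- Sequences whose blocks of length `K` all belong to a set `W` of words: the dimension is at least
`log (card W) / (K log 2)`.

Proof: `card W = M`; `M = 1`: nothing to prove.  For `M ≥ 2` fix `e : W ≃ Fin M`; the map `φ(ω) =
Real.ofDigits (fun i => e (block i of ω))` is onto `[0,1]` (`Real.ofDigits_SurjOn`) and Hölder with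
exponent `σ = log M / (K log 2)`: if `ω, ω'` agree up to the index `n`, they have the first `⌊n/K⌋`
blocks in common, `|φ(ω) - φ(ω')| ≤ M^{-⌊n/K⌋} ≤ M (2^{-n})^σ` (`Real.abs_ofDigits_sub_ofDigits_le`).
`HolderOnWith.dimH_image_le`: `1 = dimH [0,1] ≤ dimH S / σ`. -/
def S_BLK : Prop :=
  ∀ (K : ℕ) (W : Finset (Fin K → Bool)), 0 < K → W.Nonempty →
    ENNReal.ofReal (Real.log W.card / (K * Real.log 2)) ≤
      dimS {ω | ∀ i : ℕ, (fun k : Fin K => ω (i * K + k)) ∈ W}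

/-- Binomial coefficients and entropy: `C(K, r) ≥ exp (K H(r/K)) / (K+1)`.

Proof: `1 = ∑_j C(K,j) p^j (1-p)^{K-j}`, `p = r/K`, and the largest term is the one with `j = r`. -/
def S_CH : Prop :=
  ∀ K r : ℕ, 0 < K → r ≤ K →
    K * Real.binEntropy ((r : ℝ) / K) - Real.log (K + 1) ≤ Real.log (K.choose r)

/-- Balanced sequences: `|∑_{k<n} (sg ω k + u)|` bounded. -/
def Bal (u : ℝ) (ω : ℕ → Bool) : Prop :=
  ∃ C : ℝ, ∀ n : ℕ, |∑ k ∈ Finset.range n, (sg ω k + u)| ≤ C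

/-- The balanced sequences for a rational `u = x/y` have dimension at least `H((1+u)/2)/log 2`.

Proof: blocks of length `K = 2 y j` with exactly `r = (y + x) j` values `false` (sign `-1`): the sum of
`sg + u` over a block is `K - 2r + u K = 0`, so the partial sums are bounded by `2K`.  `S_BLK` with
`card W = C(K, r)`, `S_CH`: the dimension is `≥ H((1+u)/2)/log 2 - log (K+1)/(K log 2)`; `j → ∞`. -/
def S_BALQ : Prop :=
  ∀ x y : ℕ, 0 < y → x ≤ y →
    ENNReal.ofReal (Real.binEntropy ((1 + (x : ℝ) / y) / 2) / Real.log 2) ≤ dimS {ω | Bal ((x : ℝ) / y) ω}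

/-- Lower bound for real `m`: `N ≥ 1`, `0 < m ≤ N`.

Proof: for `m = N` the left side is `0`.  Else take rationals `u' > m/N`, `u' → m/N`, in `(0,1)`.  If
`Bal u' ω` then `DS (fun _ => N) ω h = -N u' ∑ p_k^{-1-h} + O(1)` (`S_ABEL` for `b` and `-b`), so `RZ`
holds with `m' = N u' ≥ m` and hence with `m`.  Continuity of the binary entropy. -/
def S_T3 : Prop :=
  ∀ (N m : ℝ), 0 < m → m ≤ N →
    ENNReal.ofReal (Real.binEntropy ((1 + m / N) / 2) / Real.log 2) ≤ dimS {ω | RZ (fun _ => N) ω m}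

/-! ## Continuation -/

/-- If the partial sums of `sg ω k + m/N` are `O(n^(1/2+δ))` for every `δ > 0`, then
`∏_k (1 - f(p_k) p_k^{-s})^{-N} = ζ(s)^{-m} exp G(s)`, `G` analytic in `Re s > 1/2`.

Proof: `∑_k (sg ω k + u) p_k^{-s}` (`u = m/N`) is, as a Dirichlet series over `n` with coefficients
supported at primes, with partial sums `O(x^(1/2+δ))` (the number of primes up to `x` is `≤ x`), so by
Abel summation equal to `s ∫_1^∞ A(x) x^{-s-1} dx`, analytic in `Re s > 1/2 + δ`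
(`LSeries_eq_mul_integral`).  `log (1 - f p^{-s})^{-1} = f p^{-s} + O(p^{-2σ})`, the remainder sums to an
analytic function in `Re s > 1/2`.  Same for `ζ`: `ζ(s) = exp (∑ p^{-s} + analytic)`. -/
def S_CONT : Prop :=
  ∀ (N m : ℕ) (ω : ℕ → Bool), 0 < N →
    (∀ δ : ℝ, 0 < δ → ∃ C : ℝ, ∀ n : ℕ,
      |∑ k ∈ Finset.range n, (sg ω k + (m : ℝ) / N)| ≤ C * (n : ℝ) ^ (1 / 2 + δ)) →
    ∃ G : ℂ → ℂ, AnalyticOnNhd ℂ G {s | 1 / 2 < s.re} ∧
      ∀ s : ℂ, 1 < s.re →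
        LF (fun _ _ => (1 : ℂ) : ℕ → Fin N → ℂ) ω s * riemannZeta s ^ m = Complex.exp (G s)

/-- If `F(s) ζ(s)^m = exp G(s)` for `Re s > 1` with `G` analytic in `Re s > 1/2`, then `F` has order
exactly `m` at `1`.  (`Λ(s) = exp (G s) * ((s-1)/((s-1) ζ(s)))^m`, `(s-1) ζ(s)` analytic near `1` with value
`1`.) -/
def S_ORD : Prop :=
  ∀ (F G : ℂ → ℂ) (m : ℕ), AnalyticOnNhd ℂ G {s | 1 / 2 < s.re} →
    (∀ s : ℂ, 1 < s.re → F s * riemannZeta s ^ m = Complex.exp (G s)) → HasOrder F 1 m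

/-- If the partial sums of `sg ω k + m/N` are `O(n^(3/4))` then `RZ (fun _ => N) ω m`, for real `m`:
`∑ (sg ω k + m/N) p_k^{-1-h}` is bounded for `0 < h ≤ 1` (Abel summation: `∑_n n^(3/4) (p_n^{-1-h} -
p_{n+1}^{-1-h})`, `p_n ≥ n + 1`, is bounded, summing back). -/
def S_RZB : Prop :=
  ∀ (N m C : ℝ) (ω : ℕ → Bool), 0 < N →
    (∀ n : ℕ, |∑ k ∈ Finset.range n, (sg ω k + m / N)| ≤ C * (n : ℝ) ^ (3 / 4 : ℝ)) →
    RZ (fun _ => N) ω m

/-! ## Varieties -/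

/-- `X` is a finite set of homogeneous polynomials in `n` variables with integer coefficients.  For a
field `κ` with `q` elements this is `(q - 1)` times the number of points over `κ` of the projective
scheme `X`: the number of nonzero solutions of the equations. -/
noncomputable def cone {n : ℕ} (X : Finset (MvPolynomial (Fin n) ℤ)) (κ : Type) [Field κ] : ℕ :=
  Nat.card {u : Fin n → κ // u ≠ 0 ∧ ∀ f ∈ X, MvPolynomial.aeval u f = 0}

/-- `α_1, …, α_N` are the eigenvalues of the geometric Frobenius at `p` on `H^i(X)`, `X` of dimension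
`d`: there are finite multisets `β_k` of complex numbers of absolute value `p^{k/2}`, `k = 0, …, 2d`,
with `β_i = {α_1, …, α_N}`, such that for every field `κ` with `p^e` elements the number of points of `X`
over `κ` is `∑ (-1)^k ∑_{z ∈ β_k} z^e`.  By Deligne's theorem such `β_k` exist for almost all `p` if `X`
is smooth, with `N` the `i`-th Betti number; for `k ≤ 2d` they are unique. -/
def IsFrob {n : ℕ} (X : Finset (MvPolynomial (Fin n) ℤ)) (d i p : ℕ) {N : ℕ} (α : Fin N → ℂ) : Prop :=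
  ∃ β : ℕ → Multiset ℂ, β i = Finset.univ.val.map α ∧
    (∀ k, ∀ z ∈ β k, ‖z‖ = (p : ℝ) ^ ((k : ℝ) / 2)) ∧
    ∀ (κ : Type) [Field κ] [Finite κ] (e : ℕ), CharP κ p → Nat.card κ = p ^ e →
      (cone X κ : ℂ) = ((p : ℂ) ^ e - 1) *
          ∑ k ∈ Finset.range (2 * d + 1), (-1 : ℂ) ^ k * ((β k).map (fun z => z ^ e)).sum

/-- `α k` are the eigenvalues of Frobenius at the prime `p_k` for almost all `k`, and at the other
primes arbitrary numbers with `|α_{k,j}| ≤ p_k^{i/2}`. -/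
def IsSystem {n : ℕ} (X : Finset (MvPolynomial (Fin n) ℤ)) (d i : ℕ) {N : ℕ}
    (α : ℕ → Fin N → ℂ) : Prop :=
  (∀ᶠ k in atTop, IsFrob X d i (pr k) (α k)) ∧ Sys (i : ℝ) α

/-- Two systems of the same `X`, `i` have the same number of eigenvalues, and the same traces at almost
all primes.

Proof: `Pool.Agent.TH958.BV.weights_unique` with `q = p`, `D = 2 d + 1`; a field with `p^e` elements
exists for `e ≥ 1` (`GaloisField p e`), `p^e - 1 ≠ 0`. -/
def S_UNI : Prop :=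
  ∀ (n : ℕ) (X : Finset (MvPolynomial (Fin n) ℤ)) (d i : ℕ), i ≤ 2 * d →
    ∀ (N N' : ℕ) (α : ℕ → Fin N → ℂ) (α' : ℕ → Fin N' → ℂ), IsSystem X d i α → IsSystem X d i α' →
      N = N' ∧ ∀ᶠ k in atTop, av (i : ℝ) α k = av (i : ℝ) α' k

/-- `N` points on the projective line: `∏_{j<N} (x - j y) = 0` -/
noncomputable def points (N : ℕ) : Finset (MvPolynomial (Fin 2) ℤ) :=
  {∏ j ∈ Finset.range N, (MvPolynomial.X 0 - MvPolynomial.C (j : ℤ) * MvPolynomial.X 1)}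

/-- The eigenvalues of `N` points are `N` ones (`d = 0`, `i = 0`).

Proof: `β 0 = {1, …, 1}`, `β k = ∅` else.  In a field of characteristic `p ≥ N` the nonzero solutions of
`∏ (x - j y) = 0` are the `(j y, y)`, `y ≠ 0`, `0 ≤ j < N`, pairwise different: `N (q - 1)` of them
(`y = 0` gives `x^N = 0`). -/
def S_PTS : Prop :=
  ∀ N : ℕ, 0 < N → IsSystem (points N) 0 0 (fun _ _ => (1 : ℂ) : ℕ → Fin N → ℂ)

end Pool.Agent.Q255.IC
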